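import Mathlib
import Pool.Agent.H.MP_973dba_an.A

set_option autoImplicit false

namespace Pool.Agent.Results.MP_973dba_an.Bidual

open Pool.Agent.H.MP_973dba_an

theorem result : ∃ (X : Type) (_ : NormedAddCommGroup X) (_ : NormedSpace ℝ X),
    CompleteSpace X ∧ UnifS X ∧ ¬ UnifS (StrongDual ℝ (StrongDual ℝ X)) :=
  ⟨X, inferInstance, inferInstance, inferInstance, unif, not_unif⟩

end Pool.Agent.Results.MP_973dba_an.Bidual
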